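import Mathlib
import Pool.Agent.Q16.SQ.Stm2

/-!
# Project SQ, job SH6: side ratios and area of the shape K6
-/

set_option autoImplicit false
noncomputable section
open scoped BigOperators
open Pool.Agent.Helper549.Tri

namespace Q16.SQ.SH6_187

theorem t_SH6 : S_SH6 := by
  intro N ℓ θ S A κ β h hκ
  subst hκ
  have a0 : A 0 = 2 * θ 0 := by
    have := h.angles 0
    simpa [K6, Fin.sum_univ_three] using this
  have a1 : A 1 = θ 0 + θ 1 := by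
    have := h.angles 1
    simpa [K6, Fin.sum_univ_three] using this
  have a2 : A 2 = 2 * θ 1 := by
    have := h.angles 2
    simpa [K6, Fin.sum_univ_three] using this
  have hs := h.Asum
  have ht := h.tsum
  have hab : θ 0 + θ 1 = Real.pi / 3 := by linarith
  have hbe : θ 1 = Real.pi / 3 - θ 0 := by linarith
  have hga : θ 2 = Real.pi - Real.pi / 3 := by linarith
  have s2 : Real.sin (θ 2) = √3 / 2 := by
    rw [hga, Real.sin_pi_sub, Real.sin_pi_div_three]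
  have sA1 : Real.sin (A 1) = √3 / 2 := by
    rw [a1, hab, Real.sin_pi_div_three]
  have q2 : (√3 : ℝ) ^ 2 = 3 := Real.sq_sqrt (by norm_num)
  have q0 : 0 < (√3 : ℝ) := Real.sqrt_pos.2 (by norm_num)
  set q : ℝ := √3 with hq
  set x := Real.sin (θ 0) with hx
  set y := Real.cos (θ 0) with hy
  have hxy : x ^ 2 + y ^ 2 = 1 := Real.sin_sq_add_cos_sq (θ 0)
  have s1 : Real.sin (θ 1) = (q * y - x) / 2 := by
    rw [hbe, Real.sin_sub, Real.sin_pi_div_three, Real.cos_pi_div_three]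
    ring
  have c1 : Real.cos (θ 1) = (y + q * x) / 2 := by
    rw [hbe, Real.cos_sub, Real.sin_pi_div_three, Real.cos_pi_div_three]
    ring
  have sA0 : Real.sin (A 0) = 2 * x * y := by
    rw [a0, Real.sin_two_mul]
  have sA2 : Real.sin (A 2) = 2 * ((q * y - x) / 2) * ((y + q * x) / 2) := by
    rw [a2, Real.sin_two_mul, s1, c1]
  have e1 : ℓ 0 * (q / 2) = ℓ 2 * x := by
    have := h.sinet 0 2
    rwa [s2] at this
  have e2 : ℓ 1 * (q / 2) = ℓ 2 * ((q * y - x) / 2) := by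
    have := h.sinet 1 2
    rwa [s2, s1] at this
  have e3 : S 0 * (q / 2) = S 1 * (2 * x * y) := by
    have := h.sineT 0 1
    rwa [sA1, sA0] at this
  have e4 : S 2 * (q / 2) = S 1 * (2 * ((q * y - x) / 2) * ((y + q * x) / 2)) := by
    have := h.sineT 2 1
    rwa [sA1, sA2] at this
  have ar := h.area
  rw [s2, sA2] at ar
  have la := h.lpos 0
  have lb := h.lpos 1
  have lc := h.lpos 2
  have S1 := h.Spos 1
  have g1 : ℓ 0 + 2 * ℓ 1 = 2 * ℓ 2 * y := by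
    have : (ℓ 0 + 2 * ℓ 1) * q = (2 * ℓ 2 * y) * q := by linear_combination 2 * e1 + 4 * e2
    exact mul_right_cancel₀ q0.ne' this
  have g2 : 2 * ℓ 0 + ℓ 1 = ℓ 2 * (y + q * x) := by
    have : (2 * ℓ 0 + ℓ 1) * q = (ℓ 2 * (y + q * x)) * q := by
      linear_combination 4 * e1 + 2 * e2 - ℓ 2 * x * q2
    exact mul_right_cancel₀ q0.ne' this
  have g0 : ℓ 2 ^ 2 = ℓ 0 ^ 2 + ℓ 0 * ℓ 1 + ℓ 1 ^ 2 := by
    nlinarith [g1, g2, hxy, q2]
  have f0 : S 0 * ℓ 2 ^ 2 = S 1 * (ℓ 0 * (ℓ 0 + 2 * ℓ 1)) := by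
    rw [g1]
    have : (S 0 * ℓ 2 ^ 2) * q = (S 1 * (ℓ 0 * (2 * ℓ 2 * y))) * q := by
      linear_combination 2 * ℓ 2 ^ 2 * e3 - 4 * S 1 * ℓ 2 * y * e1
    exact mul_right_cancel₀ q0.ne' this
  have f2 : S 2 * ℓ 2 ^ 2 = S 1 * (ℓ 1 * (2 * ℓ 0 + ℓ 1)) := by
    rw [g2]
    have : (S 2 * ℓ 2 ^ 2) * q = (S 1 * (ℓ 1 * (ℓ 2 * (y + q * x)))) * q := by
      linear_combination 2 * ℓ 2 ^ 2 * e4 - 2 * S 1 * ℓ 2 * (y + q * x) * e2
    exact mul_right_cancel₀ q0.ne' this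
  have r0 : S 0 = S 1 / ℓ 2 ^ 2 * (ℓ 0 * (ℓ 0 + 2 * ℓ 1)) := by
    rw [div_mul_eq_mul_div, eq_div_iff (by positivity)]
    exact f0
  have r2 : S 2 = S 1 / ℓ 2 ^ 2 * (ℓ 1 * (2 * ℓ 0 + ℓ 1)) := by
    rw [div_mul_eq_mul_div, eq_div_iff (by positivity)]
    exact f2
  refine ⟨g0, S 1 / ℓ 2 ^ 2, by positivity, r0, ?_, r2, ?_⟩
  · field_simp
  · have n1 : (N : ℝ) * (ℓ 0 * ℓ 1) = S 0 * S 2 := by
      have : ((N : ℝ) * (ℓ 0 * ℓ 1)) * q = (S 0 * S 2) * q := by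
        linear_combination 2 * ar - 2 * S 0 * e4
      exact mul_right_cancel₀ q0.ne' this
    have n2 : (N : ℝ) * (ℓ 0 * ℓ 1) =
        ((S 1 / ℓ 2 ^ 2) ^ 2 * ((ℓ 0 + 2 * ℓ 1) * (2 * ℓ 0 + ℓ 1))) * (ℓ 0 * ℓ 1) := by
      rw [n1]
      nth_rewrite 1 [r0]
      nth_rewrite 1 [r2]
      ring
    exact mul_right_cancel₀ (by positivity : ℓ 0 * ℓ 1 ≠ 0) n2

end Q16.SQ.SH6_187
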