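import Pool.Agent.Q16.SQ.Stm3
set_option autoImplicit false
noncomputable section
open scoped BigOperators RealInnerProductSpace
open Pool.Agent.Helper549.Tri

namespace Q16.SQ.T187

/-- the part `0 ≤ x`, `0 ≤ y ≤ h`, `x + y ≤ t` in the frame `O, u, v` -/
def Tz (O u v : E2) (h t : ℝ) : Set E2 :=
  {p | ∃ x y : ℝ, 0 ≤ x ∧ 0 ≤ y ∧ y ≤ h ∧ x + y ≤ t ∧ p = O + x • u + y • v}

theorem tz_union (O u v : E2) (l h t : ℝ) (hl : 0 ≤ l) (hh : 0 ≤ h) :
    Tz O u v l t ∪ Tz (O + l • v) u v h (t - l) = Tz O u v (l + h) t := by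
  ext p
  simp only [Tz, Set.mem_union, Set.mem_setOf_eq]
  constructor
  · rintro (⟨x, y, hx, hy, hyl, hxy, rfl⟩ | ⟨x, y, hx, hy, hyl, hxy, rfl⟩)
    · exact ⟨x, y, hx, hy, by linarith, hxy, rfl⟩
    · refine ⟨x, y + l, hx, by linarith, by linarith, by linarith, ?_⟩
      rw [add_smul]; abel
  · rintro ⟨x, y, hx, hy, hyl, hxy, rfl⟩
    by_cases hc : y ≤ l
    · exact Or.inl ⟨x, y, hx, hy, hc, hxy, rfl⟩
    · push Not at hc
      refine Or.inr ⟨x, y - l, hx, by linarith, by linarith, by linarith, ?_⟩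
      rw [sub_smul]; abel

theorem tz_disj (O u v : E2) (hu : ‖u‖ = 1) (hv : ‖v‖ = 1) (huv : ‖u - v‖ = 1) (l h t t' : ℝ) :
    Disjoint (interior (Tz O u v l t)) (interior (Tz (O + l • v) u v h t')) := by
  have hin : ⟪u, v⟫ = 1 / 2 := by
    have h1 := norm_sub_sq_real u v
    rw [hu, hv, huv] at h1
    linarith
  have huu : ⟪u, u⟫ = 1 := by rw [real_inner_self_eq_norm_sq, hu]; norm_num
  have hvv : ⟪v, v⟫ = 1 := by rw [real_inner_self_eq_norm_sq, hv]; norm_num
  set w : E2 := v - (1 / 2 : ℝ) • u with hw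
  have hwu : ⟪w, u⟫ = 0 := by
    rw [hw, inner_sub_left, inner_smul_left, huu, real_inner_comm, hin]; simp
  have hwv : ⟪w, v⟫ = 3 / 4 := by
    rw [hw, inner_sub_left, inner_smul_left, hvv, hin]; simp; norm_num
  rw [Set.disjoint_left]
  intro p hp1 hp2
  obtain ⟨x', y', hx', hy', -, -, hp'⟩ := interior_subset hp2
  have hlow : ⟪w, O⟫ + l * (3 / 4) ≤ ⟪w, p⟫ := by
    rw [hp']
    simp only [inner_add_right, inner_smul_right, hwu, hwv]
    nlinarith
  -- move p a little in the direction v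
  have hcont : Filter.Tendsto (fun s : ℝ => p + s • v) (nhdsWithin 0 (Set.Ioi 0)) (nhds p) := by
    have h1 : Continuous (fun s : ℝ => p + s • v) := by fun_prop
    have h2 := h1.tendsto 0
    simp only [zero_smul, add_zero] at h2
    exact h2.mono_left nhdsWithin_le_nhds
  have hev : ∀ᶠ s : ℝ in nhdsWithin 0 (Set.Ioi 0), p + s • v ∈ Tz O u v l t :=
    hcont.eventually (mem_interior_iff_mem_nhds.mp hp1)
  obtain ⟨s, hs, hs0⟩ := (hev.and self_mem_nhdsWithin).exists
  obtain ⟨x, y, hx, hy, hyl, hxy, hps⟩ := hs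
  have h3 : ⟪w, p + s • v⟫ = ⟪w, O⟫ + y * (3 / 4) := by
    rw [hps]
    simp only [inner_add_right, inner_smul_right, hwu, hwv]
    ring
  have h4 : ⟪w, p + s • v⟫ = ⟪w, p⟫ + s * (3 / 4) := by
    simp only [inner_add_right, inner_smul_right, hwv]
  have hs1 : (0 : ℝ) < s := hs0
  nlinarith

theorem t_TRAP (h1 : S_ROW) (h2 : S_GLUE) : S_TRAP := by
  intro e a b c mu k he ha hb hc hmu hk hcc hab O u v hu hv huv L hL
  set l : ℝ := e * (mu * a * b ^ 2) with hl
  have hl0 : 0 ≤ l := by positivity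
  have row : ∀ i : ℕ, k ≤ i → ∀ O : E2, Tlb (e * a) (e * b) (e * c) (Tz O u v l ((i + 1) * l)) := by
    intro i hi O
    have hle : mu * (a ^ 2 + b ^ 2) ≤ mu * (i * a * b) := by
      apply Nat.mul_le_mul_left
      calc a ^ 2 + b ^ 2 ≤ k * a * b := hab
        _ ≤ i * a * b := by gcongr
    obtain ⟨n, hn⟩ := Nat.exists_eq_add_of_le hle
    have hn' : (mu : ℝ) * (i * a * b) = mu * (a ^ 2 + b ^ 2) + n := by exact_mod_cast hn
    have := h1 e a b c (b * mu) n he ha hb hc (Nat.mul_pos hb hmu) hcc O u v hu hv huv l (i * l)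
      (by rw [hl]; push_cast; ring)
      (by
        have : (i : ℝ) * l = e * b * (mu * (i * a * b)) := by rw [hl]; ring
        rw [this, hn']; push_cast; ring)
    have heq : (i : ℝ) * l + l = (i + 1) * l := by ring
    rw [heq] at this
    exact this
  have main : ∀ j : ℕ, ∀ O : E2, Tlb (e * a) (e * b) (e * c)
      (Tz O u v (((j + 1 : ℕ) : ℝ) * l) (((k + (j + 1) : ℕ) : ℝ) * l)) := by
    intro j
    induction j with
    | zero =>
      intro O
      have := row k le_rfl O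
      have e1 : (((0 + 1 : ℕ) : ℝ) * l) = l := by simp
      have e2 : (((k + (0 + 1) : ℕ) : ℝ) * l) = (k + 1) * l := by push_cast; ring
      rw [e1, e2]
      exact this
    | succ j ih =>
      intro O
      have hA := row (k + (j + 1)) (by omega) O
      have hB := ih (O + l • v)
      have hU := h2 (e * a) (e * b) (e * c) _ _ hA hB (tz_disj O u v hu hv huv _ _ _ _)
      have e1 : (((k + (j + 1) : ℕ) : ℝ) * l) = (((k + (j + 1) : ℕ) : ℝ) + 1) * l - l := by ring
      rw [e1, tz_union O u v l _ _ hl0 (by positivity)] at hU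
      have e2 : l + ((j + 1 : ℕ) : ℝ) * l = ((j + 1 + 1 : ℕ) : ℝ) * l := by push_cast; ring
      have e3 : (((k + (j + 1) : ℕ) : ℝ) + 1) * l = ((k + (j + 1 + 1) : ℕ) : ℝ) * l := by
        push_cast; ring
      rw [e2, e3] at hU
      exact hU
  obtain ⟨j, rfl⟩ := Nat.exists_eq_succ_of_ne_zero hk.ne'
  have hfin := main j O
  have e1 : (((j + 1 : ℕ) : ℝ) * l) = L := by rw [hL, hl]; push_cast; ring
  have e2 : (((j.succ + (j + 1) : ℕ) : ℝ) * l) = 2 * L := by rw [hL, hl]; push_cast; ring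
  rw [e1, e2] at hfin
  exact hfin

end Q16.SQ.T187
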