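import Pool.Agent.Q201.AR.Stm2

/-!
# Project AR, part 2, job GRAPH: arithmetic in a relational signature
-/

set_option autoImplicit false

open FirstOrder FirstOrder.Language Pool.Agent.Helper227.EN

namespace Q201.AR.GRAPH187

open Pool.Agent.Helper578.JD Pool.Agent.Helper578.JD.Oracle

theorem dec_mono {α : Type} [Primcodable α] {P : α → Prop} {n m : ℕ} (h : n ≤ m)
    (hP : Dec (Oj n) P) : Dec (Oj m) P := by
  induction m, h using Nat.le_induction with
  | base => exact hP
  | succ m _ ih =>
    have hj : Red (Oj m) (Oj (m + 1)) := by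
      unfold Oj
      rw [Function.iterate_succ_apply']
      exact Red_jump _
    exact ⟨reMono ih.1 hj, reMono ih.2 hj⟩

abbrev arG : Fin 5 → ℕ := ![1, 1, 3, 3, 2]

/-- the graphs -/
def rho : (j : Fin 5) → LA.Formula (Fin (arG j))
  | 0 => Term.equal (L := LA) t0 (Term.var (0 : Fin 1))
  | 1 => Term.equal (L := LA) t1 (Term.var (0 : Fin 1))
  | 2 => Term.equal (L := LA) (tadd (Term.var (0 : Fin 3)) (Term.var (1 : Fin 3))) (Term.var (2 : Fin 3))
  | 3 => Term.equal (L := LA) (tmul (Term.var (0 : Fin 3)) (Term.var (1 : Fin 3))) (Term.var (2 : Fin 3))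
  | 4 => Relations.formula (L := LA) (α := Fin 2) (n := 2) AR.lt (fun i => Term.var i)

def tau : Defs LA (Sig arG) where
  fn := fun f => Empty.elim f
  rel := fun R => R.2 ▸ rho R.1

/-- the symbol number `j` applied to the variables -/
def sym (j : Fin 5) : (Sig arG).Formula (Fin (arG j)) :=
  Relations.formula (L := Sig arG) (n := arG j) ⟨j, rfl⟩ (fun i => Term.var i)

def sigma : Defs (Sig arG) LA where
  fn := fun {n} f => match n, f with
    | _, AF.zero => sym 0
    | _, AF.one => sym 1
    | _, AF.add => sym 2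
    | _, AF.mul => sym 3
  rel := fun {n} R => match n, R with
    | _, AR.lt => sym 4

theorem realize_sym (M : Type) [(Sig arG).Structure M] (j : Fin 5) (v : Fin (arG j) → M) :
    (sym j).Realize v ↔ Structure.RelMap (L := Sig arG) (n := arG j) ⟨j, rfl⟩ v := by
  unfold sym
  rw [Formula.realize_rel]
  rfl

theorem rz (M : Type) [LA.Structure M] (w : Fin 1 → M) :
    (rho 0).Realize w ↔ Structure.funMap (L := LA) (n := 0) AF.zero Fin.elim0 = w 0 := by
  have h1 : (t0 : LA.Term (Fin 1)).realize w =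
      Structure.funMap (L := LA) (n := 0) AF.zero Fin.elim0 := by
    simp only [t0]
    exact congrArg (Structure.funMap (L := LA) (n := 0) AF.zero) (Subsingleton.elim _ _)
  refine (Formula.realize_equal (L := LA) (t₁ := t0) (t₂ := Term.var (0 : Fin 1)) (x := w)).trans ?_
  rw [h1, Term.realize_var]

theorem ro (M : Type) [LA.Structure M] (w : Fin 1 → M) :
    (rho 1).Realize w ↔ Structure.funMap (L := LA) (n := 0) AF.one Fin.elim0 = w 0 := by
  have h1 : (t1 : LA.Term (Fin 1)).realize w =
      Structure.funMap (L := LA) (n := 0) AF.one Fin.elim0 := by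
    simp only [t1]
    exact congrArg (Structure.funMap (L := LA) (n := 0) AF.one) (Subsingleton.elim _ _)
  refine (Formula.realize_equal (L := LA) (t₁ := t1) (t₂ := Term.var (0 : Fin 1)) (x := w)).trans ?_
  rw [h1, Term.realize_var]

theorem ra (M : Type) [LA.Structure M] (w : Fin 3 → M) :
    (rho 2).Realize w ↔ Structure.funMap (L := LA) (n := 2) AF.add ![w 0, w 1] = w 2 := by
  have h1 : (tadd (Term.var (0 : Fin 3)) (Term.var (1 : Fin 3)) : LA.Term (Fin 3)).realize w =
      Structure.funMap (L := LA) (n := 2) AF.add ![w 0, w 1] :=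
    Term.realize_functions_apply₂ (L := LA) (f := AF.add) (t₁ := Term.var (0 : Fin 3))
      (t₂ := Term.var (1 : Fin 3)) (v := w)
  refine (Formula.realize_equal (L := LA) (t₁ := tadd (Term.var (0 : Fin 3)) (Term.var (1 : Fin 3)))
    (t₂ := Term.var (2 : Fin 3)) (x := w)).trans ?_
  rw [h1, Term.realize_var]

theorem rm (M : Type) [LA.Structure M] (w : Fin 3 → M) :
    (rho 3).Realize w ↔ Structure.funMap (L := LA) (n := 2) AF.mul ![w 0, w 1] = w 2 := by
  have h1 : (tmul (Term.var (0 : Fin 3)) (Term.var (1 : Fin 3)) : LA.Term (Fin 3)).realize w =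
      Structure.funMap (L := LA) (n := 2) AF.mul ![w 0, w 1] :=
    Term.realize_functions_apply₂ (L := LA) (f := AF.mul) (t₁ := Term.var (0 : Fin 3))
      (t₂ := Term.var (1 : Fin 3)) (v := w)
  refine (Formula.realize_equal (L := LA) (t₁ := tmul (Term.var (0 : Fin 3)) (Term.var (1 : Fin 3)))
    (t₂ := Term.var (2 : Fin 3)) (x := w)).trans ?_
  rw [h1, Term.realize_var]

theorem rl (M : Type) [LA.Structure M] (w : Fin 2 → M) :
    (rho 4).Realize w ↔ Structure.RelMap (L := LA) (n := 2) AR.lt w :=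
  Formula.realize_rel (L := LA) (R := AR.lt) (ts := fun i : Fin 2 => Term.var i) (v := w)

theorem app_last {M : Type} {n : ℕ} (v : Fin n → M) (y : M) : app v y (Fin.last n) = y := by
  unfold app
  rw [Fin.snoc_last]

theorem app_cast {M : Type} {n : ℕ} (v : Fin n → M) (y : M) (i : Fin n) :
    app v y i.castSucc = v i := by
  unfold app
  rw [Fin.snoc_castSucc]

theorem vec2 {M : Type} (v : Fin 2 → M) : ![v 0, v 1] = v := by
  funext i
  fin_cases i <;> rfl

theorem sigma_holds (M : Type) [LA.Structure M] [(Sig arG).Structure M] (h : tau.Holds M) :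
    sigma.Holds M := by
  have hr : ∀ (j : Fin 5) (v : Fin (arG j) → M), (sym j).Realize v ↔ (rho j).Realize v := by
    intro j v
    rw [realize_sym]
    exact (h.rel (n := arG j) ⟨j, rfl⟩ v).symm
  constructor
  · intro n f v y
    cases f with
    | zero =>
      refine (hr 0 _).trans ((rz M _).trans ?_)
      have e1 : app v y 0 = y := app_last v y
      have e2 : v = Fin.elim0 := Subsingleton.elim _ _
      rw [e1, e2]
    | one =>
      refine (hr 1 _).trans ((ro M _).trans ?_)
      have e1 : app v y 0 = y := app_last v y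
      have e2 : v = Fin.elim0 := Subsingleton.elim _ _
      rw [e1, e2]
    | add =>
      refine (hr 2 _).trans ((ra M _).trans ?_)
      have e1 : app v y 2 = y := app_last v y
      have e2 : app v y 0 = v 0 := app_cast v y 0
      have e3 : app v y 1 = v 1 := app_cast v y 1
      rw [e1, e2, e3, vec2]
    | mul =>
      refine (hr 3 _).trans ((rm M _).trans ?_)
      have e1 : app v y 2 = y := app_last v y
      have e2 : app v y 0 = v 0 := app_cast v y 0
      have e3 : app v y 1 = v 1 := app_cast v y 1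
      rw [e1, e2, e3, vec2]
  · intro n R v
    cases R with
    | lt =>
      refine (hr 4 _).trans ?_
      exact rl M _

theorem t_GRAPH : S_GRAPH := by
  intro hT hA T₀ ⟨a, ha, hf, hR, hns⟩
  obtain ⟨T, hDE⟩ := hA hT LA (Sig arG) (fun n => inferInstanceAs (IsEmpty Empty)) T₀ tau sigma
    (fun M _ _ _ _ h => sigma_holds M h)
  -- the relational structure
  let s : (Sig arG).Structure ℕ :=
    { funMap := fun f _ => Empty.elim f
      RelMap := fun {n} R v => @Formula.Realize LA ℕ a (Fin n) (tau.rel R) v }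
  have hs : @Defs.Holds LA (Sig arG) tau ℕ a s :=
    @Defs.Holds.mk LA (Sig arG) tau ℕ a s (fun f => Empty.elim f) (fun R v => Iff.rfl)
  have h1 := (@DefEq.eq_def LA (Sig arG) T₀ T tau sigma ▸ hDE).2.2
  have h2 := (@h1 ℕ a s _).1 ⟨ha, hs⟩
  have hj : ∀ j : Fin 5, ∃ n : ℕ, Dec (Oj n) fun v : Fin (arG j) → ℕ =>
      @Structure.RelMap (Sig arG) ℕ s (arG j) ⟨j, rfl⟩ v := by
    intro j
    fin_cases j
    · obtain ⟨n, hn⟩ := hf 0 AF.zero
      refine ⟨n, ?_⟩
      have e : (fun v : Fin 1 → ℕ => @Structure.RelMap (Sig arG) ℕ s 1 ⟨0, rfl⟩ v) =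
          fun v : Fin (0 + 1) → ℕ => @Structure.funMap LA ℕ a 0 AF.zero (fun i => v i.castSucc) =
            v (Fin.last 0) := by
        funext v
        refine propext ((@rz ℕ a v).trans ?_)
        have e2 : (fun i : Fin 0 => v i.castSucc) = Fin.elim0 := Subsingleton.elim _ _
        rw [e2]
        rfl
      exact Eq.mpr (congrArg (Dec (α := Fin 1 → ℕ) (Oj n)) e) hn
    · obtain ⟨n, hn⟩ := hf 0 AF.one
      refine ⟨n, ?_⟩
      have e : (fun v : Fin 1 → ℕ => @Structure.RelMap (Sig arG) ℕ s 1 ⟨1, rfl⟩ v) =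
          fun v : Fin (0 + 1) → ℕ => @Structure.funMap LA ℕ a 0 AF.one (fun i => v i.castSucc) =
            v (Fin.last 0) := by
        funext v
        refine propext ((@ro ℕ a v).trans ?_)
        have e2 : (fun i : Fin 0 => v i.castSucc) = Fin.elim0 := Subsingleton.elim _ _
        rw [e2]
        rfl
      exact Eq.mpr (congrArg (Dec (α := Fin 1 → ℕ) (Oj n)) e) hn
    · obtain ⟨n, hn⟩ := hf 2 AF.add
      refine ⟨n, ?_⟩
      have e : (fun v : Fin 3 → ℕ => @Structure.RelMap (Sig arG) ℕ s 3 ⟨2, rfl⟩ v) =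
          fun v : Fin (2 + 1) → ℕ => @Structure.funMap LA ℕ a 2 AF.add (fun i => v i.castSucc) =
            v (Fin.last 2) := by
        funext v
        refine propext ((@ra ℕ a v).trans ?_)
        have e2 : (fun i : Fin 2 => v i.castSucc) = ![v 0, v 1] := by
          funext i
          fin_cases i <;> rfl
        rw [e2]
        rfl
      exact Eq.mpr (congrArg (Dec (α := Fin 3 → ℕ) (Oj n)) e) hn
    · obtain ⟨n, hn⟩ := hf 2 AF.mul
      refine ⟨n, ?_⟩
      have e : (fun v : Fin 3 → ℕ => @Structure.RelMap (Sig arG) ℕ s 3 ⟨3, rfl⟩ v) =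
          fun v : Fin (2 + 1) → ℕ => @Structure.funMap LA ℕ a 2 AF.mul (fun i => v i.castSucc) =
            v (Fin.last 2) := by
        funext v
        refine propext ((@rm ℕ a v).trans ?_)
        have e2 : (fun i : Fin 2 => v i.castSucc) = ![v 0, v 1] := by
          funext i
          fin_cases i <;> rfl
        rw [e2]
        rfl
      exact Eq.mpr (congrArg (Dec (α := Fin 3 → ℕ) (Oj n)) e) hn
    · obtain ⟨n, hn⟩ := hR 2 AR.lt
      refine ⟨n, ?_⟩
      have e : (fun v : Fin 2 → ℕ => @Structure.RelMap (Sig arG) ℕ s 2 ⟨4, rfl⟩ v) =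
          fun v : Fin 2 → ℕ => @Structure.RelMap LA ℕ a 2 AR.lt v := by
        funext v
        exact propext (@rl ℕ a v)
      exact Eq.mpr (congrArg (Dec (α := Fin 2 → ℕ) (Oj n)) e) hn
  choose N hN using hj
  refine ⟨Finset.univ.sup N, T, tau, sigma, hDE, s, a, h2.1, fun j => ?_, h2.2, hns⟩
  exact dec_mono (Finset.le_sup (f := N) (Finset.mem_univ j)) (hN j)

end Q201.AR.GRAPH187
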