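import Mathlib
import Pool.Agent.Q82.BB.Stm

/-!
# Project BB, part NL: the Lipschitz property of the nonlinear part
-/

set_option autoImplicit false

open MeasureTheory Filter Topology Set

namespace Pool.Agent.Q82.BB

private lemma nl_cont {T : ℝ} {p : ℕ} {w : ℝ → ℝ → ℂ} {Cs : ℕ → ℝ} (h : Adm T p w Cs) :
    ContinuousOn (fun q : ℝ × ℝ => w q.1 q.2) (univ ×ˢ Icc 0 T) := by
  have h0 := h.2.1 0
  simpa only [iteratedDeriv_zero] using h0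

private lemma nl_bd {T : ℝ} {p : ℕ} {w : ℝ → ℝ → ℂ} {Cs : ℕ → ℝ} (h : Adm T p w Cs) (ξ : ℝ)
    {τ : ℝ} (hτ : τ ∈ Icc 0 T) : ‖w ξ τ‖ ≤ Cs 0 * (ex ξ τ / (1 + |ξ|) ^ (p + 1)) := by
  have h0 := h.2.2.2 0 ξ τ hτ
  simpa only [iteratedDeriv_zero] using h0

private lemma nl_cx {T : ℝ} {p : ℕ} {w : ℝ → ℝ → ℂ} {Cs : ℕ → ℝ} (h : Adm T p w Cs)
    {τ : ℝ} (hτ : τ ∈ Icc 0 T) : Continuous (fun ξ => w ξ τ) := (h.1 τ hτ 0).continuous

private lemma nl_ct {T : ℝ} {p : ℕ} {w : ℝ → ℝ → ℂ} {Cs : ℕ → ℝ} (h : Adm T p w Cs) (ξ : ℝ) :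
    ContinuousOn (fun τ => w ξ τ) (Icc 0 T) := by
  have h0 := nl_cont h
  have h1 : ContinuousOn (fun τ : ℝ => ((ξ, τ) : ℝ × ℝ)) (Icc 0 T) := by fun_prop
  have h2 := h0.comp h1 (fun τ hτ => ⟨mem_univ _, hτ⟩)
  exact h2

private lemma nl_ex0 (ξ : ℝ) : ex ξ 0 = 1 := by
  unfold ex
  simp

private lemma nl_ex1 (ξ : ℝ) {τ : ℝ} (hτ : 0 ≤ τ) : ex ξ τ ≤ 1 := by
  unfold ex
  rw [Real.exp_le_one_iff]
  have := mul_nonneg hτ (abs_nonneg ξ)
  linarith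

private lemma nl_cv (h1 : S_CVB) {T : ℝ} {p : ℕ} {w : ℝ → ℝ → ℂ} {Cs : ℕ → ℝ}
    (h : Adm T p w Cs) (ξ : ℝ) : ContinuousOn (fun s => cv w w ξ s) (Icc 0 T) := by
  obtain ⟨K, hK, hb⟩ := h1 p
  have hA := h.2.2.1 0
  have hc : Continuous (fun η : ℝ => ((Cs 0 / (1 + |η|) ^ (p + 1) : ℝ) : ℂ)) := by
    refine Complex.continuous_ofReal.comp (continuous_const.div (by fun_prop) ?_)
    intro η
    have := abs_nonneg η
    positivity
  have hn : ∀ η : ℝ, ‖((Cs 0 / (1 + |η|) ^ (p + 1) : ℝ) : ℂ)‖ = Cs 0 / (1 + |η|) ^ (p + 1) := by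
    intro η
    rw [Complex.norm_real, Real.norm_of_nonneg]
    have := abs_nonneg η
    positivity
  have hbd : ∀ η : ℝ, ‖((Cs 0 / (1 + |η|) ^ (p + 1) : ℝ) : ℂ)‖ ≤
      Cs 0 * (ex η 0 / (1 + |η|) ^ (p + 1)) := by
    intro η
    rw [hn, nl_ex0, mul_one_div]
  have i1 := (hb _ _ (Cs 0) (Cs 0) 0 le_rfl hA hA hc hc hbd hbd ξ).1.norm
  unfold cv
  refine continuousOn_of_dominated (bound := fun η => ‖((Cs 0 / (1 + |η|) ^ (p + 1) : ℝ) : ℂ) *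
    ((Cs 0 / (1 + |ξ - η|) ^ (p + 1) : ℝ) : ℂ)‖) ?_ ?_ i1 ?_
  · intro s hs
    refine Continuous.aestronglyMeasurable ?_
    exact (nl_cx h hs).mul ((nl_cx h hs).comp (continuous_const.sub continuous_id))
  · intro s hs
    refine Eventually.of_forall fun η => ?_
    have hq : ∀ η : ℝ, ‖w η s‖ ≤ Cs 0 / (1 + |η|) ^ (p + 1) := by
      intro η
      refine (nl_bd h η hs).trans ?_
      rw [← mul_one_div (Cs 0)]
      refine mul_le_mul_of_nonneg_left ?_ hA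
      have := abs_nonneg η
      exact div_le_div_of_nonneg_right (nl_ex1 η hs.1) (by positivity)
    rw [norm_mul, norm_mul, hn, hn]
    exact mul_le_mul (hq η) (hq _) (norm_nonneg _) ((norm_nonneg _).trans (hq η))
  · refine Eventually.of_forall fun η => ?_
    exact (nl_ct h η).mul (nl_ct h (ξ - η))

theorem nl (h1 : S_CVB) (h2 : S_TI) : S_NL := by
  intro T p κ hT hκ
  obtain ⟨K, hK, hb⟩ := h1 p
  obtain ⟨K', hK', hti⟩ := h2 T hT
  obtain ⟨C, hC, hk⟩ := hκ.2.2.2 0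
  refine ⟨C * K * K', by positivity, ?_⟩
  intro w v Cs Ds D hD hw hv hwv ξ τ hτ
  have hA := hw.2.2.1 0
  have hB := hv.2.2.1 0
  have hkc : Continuous (fun s : ℝ => κ ξ τ s) := by
    have h0 := hκ.2.1 0
    simp only [iteratedDeriv_zero] at h0
    exact h0.comp (by fun_prop : Continuous (fun s : ℝ => ((ξ, τ, s) : ℝ × ℝ × ℝ)))
  have hux : uIcc (0 : ℝ) T = Icc 0 T := uIcc_of_le hT.le
  have hi : ∀ (z : ℝ → ℝ → ℂ) (Es : ℕ → ℝ), Adm T p z Es →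
      IntervalIntegrable (fun s => (κ ξ τ s : ℂ) * cv z z ξ s) volume 0 T := by
    intro z Es hz
    refine ContinuousOn.intervalIntegrable ?_
    rw [hux]
    exact ((Complex.continuous_ofReal.comp hkc).continuousOn).mul (nl_cv h1 hz ξ)
  have hcv : ∀ s ∈ Icc 0 T, ‖cv w w ξ s - cv v v ξ s‖ ≤
      K * (Cs 0 + Ds 0) * D * (ex ξ s / (1 + |ξ|) ^ p) := by
    intro s hs
    have cw := nl_cx hw hs
    have cvv := nl_cx hv hs
    have cd : Continuous (fun ξ => w ξ s - v ξ s) := cw.sub cvv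
    have bw : ∀ ξ, ‖w ξ s‖ ≤ Cs 0 * (ex ξ s / (1 + |ξ|) ^ (p + 1)) := fun ξ => nl_bd hw ξ hs
    have bv : ∀ ξ, ‖v ξ s‖ ≤ Ds 0 * (ex ξ s / (1 + |ξ|) ^ (p + 1)) := fun ξ => nl_bd hv ξ hs
    have bd : ∀ ξ, ‖w ξ s - v ξ s‖ ≤ D * (ex ξ s / (1 + |ξ|) ^ (p + 1)) := fun ξ => hwv ξ s hs
    have e1 := hb (fun ξ => w ξ s) (fun ξ => w ξ s - v ξ s) (Cs 0) D s hs.1 hA hD cw cd bw bd ξ
    have e2 := hb (fun ξ => w ξ s - v ξ s) (fun ξ => v ξ s) D (Ds 0) s hs.1 hD hB cd cvv bd bv ξ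
    have e3 := hb (fun ξ => w ξ s) (fun ξ => w ξ s) (Cs 0) (Cs 0) s hs.1 hA hA cw cw bw bw ξ
    have e4 := hb (fun ξ => v ξ s) (fun ξ => v ξ s) (Ds 0) (Ds 0) s hs.1 hB hB cvv cvv bv bv ξ
    have e5 : cv w w ξ s - cv v v ξ s = (∫ η, w η s * (w (ξ - η) s - v (ξ - η) s)) +
        ∫ η, (w η s - v η s) * v (ξ - η) s := by
      unfold cv
      rw [← integral_sub e3.1 e4.1, ← integral_add e1.1 e2.1]
      refine integral_congr_ae (Eventually.of_forall fun η => ?_)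
      simp only
      ring
    rw [e5]
    refine (norm_add_le _ _).trans ?_
    refine (add_le_add e1.2 e2.2).trans (le_of_eq ?_)
    ring
  unfold Nl
  rw [← intervalIntegral.integral_sub (hi w Cs hw) (hi v Ds hv)]
  have hbound : ∀ s ∈ Icc 0 T, ‖(κ ξ τ s : ℂ) * cv w w ξ s - (κ ξ τ s : ℂ) * cv v v ξ s‖ ≤
      C * K * (Cs 0 + Ds 0) * D / (1 + |ξ|) ^ p *
        (Real.exp (-(ξ ^ 2 * |τ - s| / 4)) * ex ξ s) := by
    intro s hs
    rw [← mul_sub, norm_mul, Complex.norm_real, Real.norm_eq_abs]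
    have hk1 := hk ξ τ hτ s hs
    rw [iteratedDeriv_zero] at hk1
    refine (mul_le_mul hk1 (hcv s hs) (norm_nonneg _) (by positivity)).trans (le_of_eq ?_)
    have := abs_nonneg ξ
    field_simp
  have hexc : Continuous (fun s : ℝ => Real.exp (-(ξ ^ 2 * |τ - s| / 4)) * ex ξ s) := by
    unfold ex
    fun_prop
  refine (intervalIntegral.norm_integral_le_of_norm_le hT.le
    (Eventually.of_forall fun s hs => hbound s ⟨hs.1.le, hs.2⟩)
    ((continuous_const.mul hexc).intervalIntegrable 0 T)).trans ?_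
  rw [intervalIntegral.integral_const_mul]
  have h0 : 0 ≤ C * K * (Cs 0 + Ds 0) * D / (1 + |ξ|) ^ p := by
    have := abs_nonneg ξ
    positivity
  refine (mul_le_mul_of_nonneg_left (hti ξ τ hτ) h0).trans (le_of_eq ?_)
  have := abs_nonneg ξ
  have h3 : (1 + |ξ|) ≠ 0 := by positivity
  rw [pow_add]
  field_simp

end Pool.Agent.Q82.BB
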