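import Mathlib
import Pool.Agent.Q82.BC.Stm
import Pool.Agent.Q109.BB_TI

/-!
# Project BC, part TI2: the time integral
-/

set_option autoImplicit false

open MeasureTheory Filter Topology Set
open Pool.Agent.Q82.BB (chi mu lam IsSh cv Nl Good UU Tower)

namespace Pool.Agent.Q82.BC

private lemma ti2_er_pos (ξ τ : ℝ) : 0 < er ξ τ := Real.exp_pos _

/-- the exponential factor -/
private lemma ti2_pt (ξ τ s : ℝ) (hs : 0 ≤ s) (hτ : 0 ≤ τ) :
    Real.exp (-(ξ ^ 2 * |τ - s| / 4)) * er ξ s ≤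
      2 * (Real.exp (-(ξ ^ 2 / 8 * |τ - s|)) * er ξ τ) := by
  unfold er
  rw [← Real.exp_add, ← Real.exp_add]
  have h2 : Real.exp (1 / 128 : ℝ) ≤ 2 := by
    have h3 : (1 / 128 : ℝ) ≤ Real.log 2 := by
      have := Real.log_two_gt_d9
      linarith
    calc Real.exp (1 / 128 : ℝ) ≤ Real.exp (Real.log 2) := Real.exp_le_exp.2 h3
      _ = 2 := Real.exp_log (by norm_num)
  have hX : (Real.sqrt τ) ^ 2 = τ := Real.sq_sqrt hτ
  have hY : (Real.sqrt s) ^ 2 = s := Real.sq_sqrt hs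
  have hξ : |ξ| ^ 2 = ξ ^ 2 := sq_abs ξ
  have key : -(ξ ^ 2 * |τ - s| / 4) + -(Real.sqrt s * |ξ| / 16) ≤
      1 / 128 + (-(ξ ^ 2 / 8 * |τ - s|) + -(Real.sqrt τ * |ξ| / 16)) := by
    rcases le_total τ s with h | h
    · have h1 : Real.sqrt τ ≤ Real.sqrt s := Real.sqrt_le_sqrt h
      have h3 : Real.sqrt τ * |ξ| ≤ Real.sqrt s * |ξ| :=
        mul_le_mul_of_nonneg_right h1 (abs_nonneg ξ)
      have h4 : 0 ≤ ξ ^ 2 * |τ - s| := by positivity
      nlinarith
    · rw [abs_of_nonneg (by linarith : 0 ≤ τ - s)]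
      have h1 : Real.sqrt s ≤ Real.sqrt τ := Real.sqrt_le_sqrt h
      have h0 : 0 ≤ Real.sqrt s := Real.sqrt_nonneg s
      set X := Real.sqrt τ * |ξ| with hXd
      set Y := Real.sqrt s * |ξ| with hYd
      have hXY : Y ≤ X := mul_le_mul_of_nonneg_right h1 (abs_nonneg ξ)
      have hY0 : 0 ≤ Y := mul_nonneg h0 (abs_nonneg ξ)
      have e1 : ξ ^ 2 * (τ - s) = X ^ 2 - Y ^ 2 := by
        rw [hXd, hYd, mul_pow, mul_pow, hX, hY, hξ]
        ring
      have e2 : ξ ^ 2 / 8 * (τ - s) = (X ^ 2 - Y ^ 2) / 8 := by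
        rw [← e1]
        ring
      rw [e1, e2]
      have h5 : (X - Y) ^ 2 ≤ X ^ 2 - Y ^ 2 := by nlinarith
      nlinarith [sq_nonneg (X - Y - 1 / 4)]
  calc Real.exp (-(ξ ^ 2 * |τ - s| / 4) + -(Real.sqrt s * |ξ| / 16)) ≤
        Real.exp (1 / 128 + (-(ξ ^ 2 / 8 * |τ - s|) + -(Real.sqrt τ * |ξ| / 16))) :=
        Real.exp_le_exp.2 key
    _ = Real.exp (1 / 128) * Real.exp (-(ξ ^ 2 / 8 * |τ - s|) + -(Real.sqrt τ * |ξ| / 16)) :=
        Real.exp_add _ _
    _ ≤ 2 * Real.exp (-(ξ ^ 2 / 8 * |τ - s|) + -(Real.sqrt τ * |ξ| / 16)) :=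
        mul_le_mul_of_nonneg_right h2 (Real.exp_pos _).le

/-- the antiderivative -/
private noncomputable def ti2_G (a s : ℝ) : ℝ := 2 * Real.sqrt a * Real.arctan (Real.sqrt (a * s))

private lemma ti2_G_deriv {a s : ℝ} (ha : 0 < a) (hs : 0 < s) :
    HasDerivAt (ti2_G a) (a / ((1 + a * s) * Real.sqrt s)) s := by
  have h1 : HasDerivAt (fun s : ℝ => a * s) a s := by
    simpa using (hasDerivAt_id s).const_mul a
  have h2 : HasDerivAt (fun s : ℝ => Real.sqrt (a * s)) (a / (2 * Real.sqrt (a * s))) s :=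
    h1.sqrt (by positivity)
  have h3 := (h2.arctan).const_mul (2 * Real.sqrt a)
  refine h3.congr_deriv ?_
  have hsq : Real.sqrt (a * s) = Real.sqrt a * Real.sqrt s := Real.sqrt_mul ha.le s
  have ha' : Real.sqrt a ≠ 0 := (Real.sqrt_pos.2 ha).ne'
  have hs' : Real.sqrt s ≠ 0 := (Real.sqrt_pos.2 hs).ne'
  have h4 : Real.sqrt (a * s) ^ 2 = a * s := Real.sq_sqrt (by positivity)
  rw [h4, hsq]
  have h5 : (1 + a * s) ≠ 0 := by positivity
  field_simp

private lemma ti2_G_cont {a : ℝ} : Continuous (ti2_G a) := by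
  unfold ti2_G
  exact continuous_const.mul (Real.continuous_arctan.comp
    (Real.continuous_sqrt.comp (continuous_const.mul continuous_id)))

private lemma ti2_B {a T : ℝ} (ha : 0 < a) (hT : 0 < T) :
    IntervalIntegrable (fun s => a / ((1 + a * s) * Real.sqrt s)) volume 0 T ∧
      ∫ s in (0 : ℝ)..T, a / ((1 + a * s) * Real.sqrt s) ≤ 4 * Real.sqrt a := by
  have hi : IntervalIntegrable (fun s => a / ((1 + a * s) * Real.sqrt s)) volume 0 T := by
    refine intervalIntegral.intervalIntegrable_deriv_of_nonneg (g := ti2_G a)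
      ti2_G_cont.continuousOn ?_ ?_
    · intro s hs
      rw [min_eq_left hT.le] at hs
      exact ti2_G_deriv ha hs.1
    · intro s hs
      rw [min_eq_left hT.le] at hs
      have := hs.1
      positivity
  refine ⟨hi, ?_⟩
  rw [intervalIntegral.integral_eq_sub_of_hasDerivAt_of_le hT.le ti2_G_cont.continuousOn
    (fun s hs => ti2_G_deriv ha hs.1) hi]
  unfold ti2_G
  rw [mul_zero, Real.sqrt_zero, Real.arctan_zero, mul_zero, sub_zero]
  have h1 := Real.arctan_lt_pi_div_two (Real.sqrt (a * T))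
  have h2 := Real.pi_le_four
  have h3 : Real.arctan (Real.sqrt (a * T)) ≤ 2 := by linarith
  have h4 := Real.sqrt_nonneg a
  nlinarith

theorem ti2 : S_TI2 := by
  intro T hT
  refine ⟨2 * (144 + 8 * T), by positivity, ?_⟩
  intro ξ τ hτ
  set a : ℝ := 1 + ξ ^ 2 with ha
  have ha0 : 0 < a := by positivity
  have hx := abs_nonneg ξ
  have hB := ti2_B ha0 hT
  have hAc : Continuous (fun s : ℝ => Real.exp (-(ξ ^ 2 / 8 * |τ - s|))) := by fun_prop
  have hAi := hAc.intervalIntegrable (μ := volume) 0 T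
  -- the dominating function
  set H : ℝ → ℝ := fun s => 2 * er ξ τ * ((1 + |ξ|) ^ 3 * Real.exp (-(ξ ^ 2 / 8 * |τ - s|)) +
    2 * (a / ((1 + a * s) * Real.sqrt s))) with hH
  have hHi : IntervalIntegrable H volume 0 T :=
    ((hAi.const_mul ((1 + |ξ|) ^ 3)).add (hB.1.const_mul 2)).const_mul (2 * er ξ τ)
  have hpt : ∀ s ∈ Ioc 0 T, min 1 (a * s) * Real.exp (-(ξ ^ 2 * |τ - s| / 4)) *
      (er ξ s * ((1 + |ξ|) ^ 3 + (s * Real.sqrt s)⁻¹)) ≤ H s := by
    intro s hs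
    have hs0 := hs.1
    have hsq : 0 < Real.sqrt s := Real.sqrt_pos.2 hs0
    have hm0 : 0 ≤ min 1 (a * s) := le_min zero_le_one (by positivity)
    have hm1 : min 1 (a * s) ≤ 1 := min_le_left _ _
    have hp := ti2_pt ξ τ s hs0.le hτ.1.le
    have he1 : Real.exp (-(ξ ^ 2 / 8 * |τ - s|)) ≤ 1 :=
      Real.exp_le_one_iff.2 (by
        have : 0 ≤ ξ ^ 2 / 8 * |τ - s| := by positivity
        linarith)
    have he := ti2_er_pos ξ τ
    have hE : 0 < Real.exp (-(ξ ^ 2 / 8 * |τ - s|)) := Real.exp_pos _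
    have hm2 : min 1 (a * s) * (s * Real.sqrt s)⁻¹ ≤ 2 * (a / ((1 + a * s) * Real.sqrt s)) := by
      have h1 : min 1 (a * s) * (1 + a * s) ≤ 2 * (a * s) := by
        have has : 0 < a * s := by positivity
        rcases le_total 1 (a * s) with h | h
        · rw [min_eq_left h]
          linarith
        · rw [min_eq_right h]
          nlinarith
      rw [← div_eq_mul_inv, mul_div_assoc', div_le_div_iff₀ (by positivity) (by positivity)]
      have h3 : min 1 (a * s) * ((1 + a * s) * Real.sqrt s) =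
          (min 1 (a * s) * (1 + a * s)) * Real.sqrt s := by ring
      have h4 : 2 * a * (s * Real.sqrt s) = (2 * (a * s)) * Real.sqrt s := by ring
      rw [h3, h4]
      exact mul_le_mul_of_nonneg_right h1 hsq.le
    calc min 1 (a * s) * Real.exp (-(ξ ^ 2 * |τ - s| / 4)) *
        (er ξ s * ((1 + |ξ|) ^ 3 + (s * Real.sqrt s)⁻¹)) =
        (Real.exp (-(ξ ^ 2 * |τ - s| / 4)) * er ξ s) * (min 1 (a * s) * (1 + |ξ|) ^ 3 +
          min 1 (a * s) * (s * Real.sqrt s)⁻¹) := by ring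
      _ ≤ (2 * (Real.exp (-(ξ ^ 2 / 8 * |τ - s|)) * er ξ τ)) * (min 1 (a * s) * (1 + |ξ|) ^ 3 +
          min 1 (a * s) * (s * Real.sqrt s)⁻¹) :=
          mul_le_mul_of_nonneg_right hp (by positivity)
      _ = 2 * er ξ τ * (Real.exp (-(ξ ^ 2 / 8 * |τ - s|)) * (min 1 (a * s) * (1 + |ξ|) ^ 3) +
          Real.exp (-(ξ ^ 2 / 8 * |τ - s|)) * (min 1 (a * s) * (s * Real.sqrt s)⁻¹)) := by ring
      _ ≤ 2 * er ξ τ * (Real.exp (-(ξ ^ 2 / 8 * |τ - s|)) * (1 * (1 + |ξ|) ^ 3) +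
          1 * (2 * (a / ((1 + a * s) * Real.sqrt s)))) := by
          refine mul_le_mul_of_nonneg_left (add_le_add ?_ ?_) (by positivity)
          · exact mul_le_mul_of_nonneg_left (mul_le_mul_of_nonneg_right hm1 (by positivity)) hE.le
          · exact mul_le_mul he1 hm2 (by positivity) zero_le_one
      _ = H s := by
          rw [hH]
          ring
  have hnn : ∀ s ∈ Ioc 0 T, 0 ≤ min 1 (a * s) * Real.exp (-(ξ ^ 2 * |τ - s| / 4)) *
      (er ξ s * ((1 + |ξ|) ^ 3 + (s * Real.sqrt s)⁻¹)) := by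
    intro s hs
    have hs0 := hs.1
    have hm0 : 0 ≤ min 1 (a * s) := le_min zero_le_one (by positivity)
    have := ti2_er_pos ξ s
    positivity
  have hmeas : Measurable (fun s : ℝ => min 1 (a * s) * Real.exp (-(ξ ^ 2 * |τ - s| / 4)) *
      (er ξ s * ((1 + |ξ|) ^ 3 + (s * Real.sqrt s)⁻¹))) := by
    have m1 : Measurable (fun s : ℝ => min 1 (a * s)) :=
      (continuous_const.min (continuous_const.mul continuous_id)).measurable
    have m2 : Measurable (fun s : ℝ => Real.exp (-(ξ ^ 2 * |τ - s| / 4))) :=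
      (by fun_prop : Continuous (fun s : ℝ => Real.exp (-(ξ ^ 2 * |τ - s| / 4)))).measurable
    have m3 : Measurable (fun s : ℝ => er ξ s) := by
      unfold er
      exact (by fun_prop : Continuous (fun s : ℝ => Real.exp (-(Real.sqrt s * |ξ| / 16)))).measurable
    have m4 : Measurable (fun s : ℝ => (s * Real.sqrt s)⁻¹) :=
      (continuous_id.mul Real.continuous_sqrt).measurable.inv
    exact (m1.mul m2).mul (m3.mul (measurable_const.add m4))
  have hFi : IntervalIntegrable (fun s => min 1 (a * s) * Real.exp (-(ξ ^ 2 * |τ - s| / 4)) *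
      (er ξ s * ((1 + |ξ|) ^ 3 + (s * Real.sqrt s)⁻¹))) volume 0 T := by
    rw [intervalIntegrable_iff_integrableOn_Ioc_of_le hT.le] at hHi ⊢
    refine Integrable.mono' hHi hmeas.aestronglyMeasurable ?_
    refine (ae_restrict_iff' measurableSet_Ioc).2 (Eventually.of_forall fun s hs => ?_)
    rw [Real.norm_of_nonneg (hnn s hs)]
    exact hpt s hs
  refine ⟨hFi, ?_⟩
  have hle : ∫ s in (0 : ℝ)..T, min 1 (a * s) * Real.exp (-(ξ ^ 2 * |τ - s| / 4)) *
      (er ξ s * ((1 + |ξ|) ^ 3 + (s * Real.sqrt s)⁻¹)) ≤ ∫ s in (0 : ℝ)..T, H s := by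
    rw [intervalIntegral.integral_of_le hT.le, intervalIntegral.integral_of_le hT.le]
    rw [intervalIntegrable_iff_integrableOn_Ioc_of_le hT.le] at hHi hFi
    exact setIntegral_mono_on hFi hHi measurableSet_Ioc hpt
  refine hle.trans ?_
  have hHint : ∫ s in (0 : ℝ)..T, H s = 2 * er ξ τ * ((1 + |ξ|) ^ 3 *
      (∫ s in (0 : ℝ)..T, Real.exp (-(ξ ^ 2 / 8 * |τ - s|))) +
      2 * ∫ s in (0 : ℝ)..T, a / ((1 + a * s) * Real.sqrt s)) := by
    rw [hH, intervalIntegral.integral_const_mul, intervalIntegral.integral_add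
      (hAi.const_mul ((1 + |ξ|) ^ 3)) (hB.1.const_mul 2), intervalIntegral.integral_const_mul,
      intervalIntegral.integral_const_mul]
  rw [hHint]
  have hA : (1 + |ξ|) ^ 3 * (∫ s in (0 : ℝ)..T, Real.exp (-(ξ ^ 2 / 8 * |τ - s|))) ≤
      (128 + 8 * T) * (1 + |ξ|) := by
    rcases le_total |ξ| 1 with h | h
    · have h1 : ∫ s in (0 : ℝ)..T, Real.exp (-(ξ ^ 2 / 8 * |τ - s|)) ≤ ∫ s in (0 : ℝ)..T, (1 : ℝ) := by
        refine intervalIntegral.integral_mono_on hT.le hAi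
          (continuous_const.intervalIntegrable _ _) (fun s hs => ?_)
        exact Real.exp_le_one_iff.2 (by
          have : 0 ≤ ξ ^ 2 / 8 * |τ - s| := by positivity
          linarith)
      rw [intervalIntegral.integral_const, sub_zero, smul_eq_mul, mul_one] at h1
      have h2 : (1 + |ξ|) ^ 2 ≤ 4 := by nlinarith
      calc (1 + |ξ|) ^ 3 * (∫ s in (0 : ℝ)..T, Real.exp (-(ξ ^ 2 / 8 * |τ - s|))) ≤
            (1 + |ξ|) ^ 3 * T := mul_le_mul_of_nonneg_left h1 (by positivity)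
        _ = (1 + |ξ|) ^ 2 * ((1 + |ξ|) * T) := by ring
        _ ≤ 4 * ((1 + |ξ|) * T) := mul_le_mul_of_nonneg_right h2 (by positivity)
        _ ≤ (128 + 8 * T) * (1 + |ξ|) := by nlinarith [mul_nonneg (by linarith : 0 ≤ 1 + |ξ|) hT.le]
    · have hξ2 : 0 < ξ ^ 2 := by
        rw [← sq_abs]
        positivity
      have h1 := Pool.Agent.Q82.BB.ti_abs (ξ ^ 2 / 8) τ T (by positivity) ⟨hτ.1.le, hτ.2⟩
      have h2 : (1 + |ξ|) ^ 3 * (2 / (ξ ^ 2 / 8)) ≤ 64 * (1 + |ξ|) := by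
        rw [mul_div_assoc', div_le_iff₀ (by positivity)]
        have h3 : (1 + |ξ|) ^ 2 ≤ 4 * ξ ^ 2 := by
          rw [← sq_abs ξ]
          nlinarith
        calc (1 + |ξ|) ^ 3 * 2 = (1 + |ξ|) ^ 2 * (2 * (1 + |ξ|)) := by ring
          _ ≤ (4 * ξ ^ 2) * (2 * (1 + |ξ|)) := mul_le_mul_of_nonneg_right h3 (by positivity)
          _ = 64 * (1 + |ξ|) * (ξ ^ 2 / 8) := by ring
      calc (1 + |ξ|) ^ 3 * (∫ s in (0 : ℝ)..T, Real.exp (-(ξ ^ 2 / 8 * |τ - s|))) ≤
            (1 + |ξ|) ^ 3 * (2 / (ξ ^ 2 / 8)) := mul_le_mul_of_nonneg_left h1 (by positivity)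
        _ ≤ 64 * (1 + |ξ|) := h2
        _ ≤ (128 + 8 * T) * (1 + |ξ|) := mul_le_mul_of_nonneg_right (by linarith) (by positivity)
  have hBb : 2 * ∫ s in (0 : ℝ)..T, a / ((1 + a * s) * Real.sqrt s) ≤ 16 * (1 + |ξ|) := by
    have h1 : Real.sqrt a ≤ 1 + |ξ| := by
      rw [Real.sqrt_le_left (by positivity), ha, ← sq_abs ξ]
      nlinarith
    have h2 := hB.2
    linarith
  have he := ti2_er_pos ξ τ
  calc 2 * er ξ τ * ((1 + |ξ|) ^ 3 *
      (∫ s in (0 : ℝ)..T, Real.exp (-(ξ ^ 2 / 8 * |τ - s|))) +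
      2 * ∫ s in (0 : ℝ)..T, a / ((1 + a * s) * Real.sqrt s)) ≤
      2 * er ξ τ * ((128 + 8 * T) * (1 + |ξ|) + 16 * (1 + |ξ|)) :=
        mul_le_mul_of_nonneg_left (add_le_add hA hBb) (by positivity)
    _ = 2 * (144 + 8 * T) * ((1 + |ξ|) * er ξ τ) := by ring

end Pool.Agent.Q82.BC
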