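import Pool.Agent.Q61.MH.Stm

/-!
# Project MH, job ABEL
-/

set_option autoImplicit false

open Real

noncomputable section

namespace Pool.Agent.Q61.MH

private lemma abel_fin {p a : ℕ → ℝ} (hp : ∀ n, p (n + 1) ≤ p n) (hA : ∀ k, 0 ≤ ∑ w ∈ Finset.range k, a w) :
    ∀ n, p n * ∑ w ∈ Finset.range n, a w ≤ ∑ w ∈ Finset.range n, p w * a w := by
  intro n
  induction n with
  | zero => simp
  | succ n ih =>
    rw [Finset.sum_range_succ (fun w => p w * a w)]
    have h1 : p (n + 1) * ∑ w ∈ Finset.range (n + 1), a w ≤ p n * ∑ w ∈ Finset.range (n + 1), a w :=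
      mul_le_mul_of_nonneg_right (hp n) (hA (n + 1))
    have h2 : p n * ∑ w ∈ Finset.range (n + 1), a w =
        p n * ∑ w ∈ Finset.range n, a w + p n * a n := by
      rw [Finset.sum_range_succ]
      ring
    linarith

private lemma abel_ite (c : ℝ) (y : ℕ) : ∀ k : ℕ,
    ∑ w ∈ Finset.range k, (if y ≤ w then c else 0) = c * ((k - y : ℕ) : ℝ) := by
  intro k
  induction k with
  | zero => simp
  | succ k ih =>
    rw [Finset.sum_range_succ, ih]
    by_cases h : y ≤ k
    · rw [if_pos h, Nat.succ_sub h]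
      push_cast
      ring
    · rw [if_neg h]
      have h1 : k - y = 0 := by omega
      have h2 : k + 1 - y = 0 := by omega
      rw [h1, h2]
      simp

private lemma S_nonneg' (k : ℕ) (r : ℝ) : 0 ≤ S k r := by
  unfold S
  exact Finset.sum_nonneg fun i _ => Real.rpow_nonneg (by positivity) r

private lemma S_pos' {k : ℕ} (hk : 0 < k) (r : ℝ) : 0 < S k r := by
  unfold S
  exact Finset.sum_pos (fun i _ => Real.rpow_pos_of_pos (by positivity) r)
    (Finset.nonempty_range_iff.2 hk.ne')

theorem abel : S_abel := by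
  intro q r M hq hr hM hG _ y
  set c : ℝ := (2 * (y : ℝ) + 1) ^ r with hc
  have hc0 : 0 ≤ c := Real.rpow_nonneg (by positivity) r
  set p : ℕ → ℝ := fun w => q ((w : ℤ) + 1) with hp
  have hp0 : ∀ w, 0 ≤ p w := fun w => hq.nonneg _
  have hpa : ∀ n, p (n + 1) ≤ p n := by
    intro n
    refine hq.unimodal _ _ ?_
    push_cast
    rw [abs_of_nonneg (by positivity), abs_of_nonneg (by positivity)]
    linarith
  set a : ℕ → ℝ := fun w => M * ((w : ℝ) + 1) ^ r - (if y ≤ w then c else 0) with ha
  have hA : ∀ k, 0 ≤ ∑ w ∈ Finset.range k, a w := by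
    intro k
    have h1 : ∑ w ∈ Finset.range k, a w = M * S k r - c * ((k - y : ℕ) : ℝ) := by
      rw [ha, Finset.sum_sub_distrib, abel_ite, ← Finset.mul_sum]
      rfl
    rw [h1]
    rcases Nat.lt_or_ge y k with h | h
    · have h2 := hG y k h
      unfold G at h2
      rw [div_le_iff₀ (S_pos' (by omega) r)] at h2
      rw [Nat.cast_sub h.le]
      linarith
    · rw [Nat.sub_eq_zero_of_le h]
      have := mul_nonneg hM (S_nonneg' k r)
      simpa using this
  have hfin : ∀ n : ℕ, ∑ w ∈ Finset.range n, c * q ((w : ℤ) + y + 1) ≤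
      M * ∑ w ∈ Finset.range (y + n), q ((w : ℤ) + 1) * ((w : ℝ) + 1) ^ r := by
    intro n
    have h1 := abel_fin hpa hA (y + n)
    have h2 : 0 ≤ p (y + n) * ∑ w ∈ Finset.range (y + n), a w := mul_nonneg (hp0 _) (hA _)
    have h3 : ∑ w ∈ Finset.range (y + n), p w * a w =
        M * ∑ w ∈ Finset.range (y + n), q ((w : ℤ) + 1) * ((w : ℝ) + 1) ^ r -
          ∑ w ∈ Finset.range (y + n), (if y ≤ w then c * p w else 0) := by
      rw [Finset.mul_sum, ← Finset.sum_sub_distrib]
      refine Finset.sum_congr rfl fun w _ => ?_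
      rw [ha, hp]
      by_cases h : y ≤ w
      · simp only [if_pos h]
        ring
      · simp only [if_neg h]
        ring
    have h4 : ∑ w ∈ Finset.range (y + n), (if y ≤ w then c * p w else 0) =
        ∑ w ∈ Finset.range n, c * q ((w : ℤ) + y + 1) := by
      rw [Finset.sum_range_add]
      have h5 : ∑ w ∈ Finset.range y, (if y ≤ w then c * p w else 0) = 0 := by
        refine Finset.sum_eq_zero fun w hw => ?_
        rw [Finset.mem_range] at hw
        rw [if_neg (by omega)]
      rw [h5, zero_add]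
      refine Finset.sum_congr rfl fun w _ => ?_
      rw [if_pos (by omega), hp]
      have h6 : (((y + w : ℕ) : ℤ) + 1) = (w : ℤ) + y + 1 := by
        push_cast
        ring
      simp only [h6]
    linarith
  unfold T Mo
  rw [← ENNReal.tsum_mul_left]
  refine ENNReal.tsum_le_of_sum_range_le fun n => ?_
  have h1 : ∀ w ∈ Finset.range n, ENNReal.ofReal c * ENNReal.ofReal (q ((w : ℤ) + y + 1)) =
      ENNReal.ofReal (c * q ((w : ℤ) + y + 1)) := fun w _ => (ENNReal.ofReal_mul hc0).symm
  rw [Finset.sum_congr rfl h1, ← ENNReal.ofReal_sum_of_nonneg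
    (fun w _ => mul_nonneg hc0 (hq.nonneg _))]
  refine (ENNReal.ofReal_le_ofReal (hfin n)).trans ?_
  rw [ENNReal.ofReal_mul hM]
  refine mul_le_mul_right ?_ (ENNReal.ofReal M)
  rw [ENNReal.ofReal_sum_of_nonneg
    (fun w _ => mul_nonneg (hq.nonneg _) (Real.rpow_nonneg (by positivity) r))]
  exact ENNReal.sum_le_tsum _

end Pool.Agent.Q61.MH
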