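import Mathlib
import Pool.Agent.Q82.QD.Stm

/-!
# Project QD of helper82: the approximate equation (job APP2)
-/

set_option autoImplicit false

open MeasureTheory Filter Topology Real InnerProductSpace Laplacian Set

namespace Pool.Agent.Q82.QD

open Pool.Agent.Q82.QC (E)

private lemma app2_fac (t : ℝ) : 0 ≤ max 0 (min 1 t) ∧ max 0 (min 1 t) ≤ 1 :=
  ⟨le_max_left _ _, max_le zero_le_one (min_le_left _ _)⟩

private lemma app2_one {t : ℝ} (ht : 1 ≤ t) : max 0 (min 1 t) = 1 := by
  rw [min_eq_left ht, max_eq_right zero_le_one]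

theorem app2 (h1 : S_RAT2) : S_APP2 := by
  intro F a ha η hη
  filter_upwards [h1 F a ha η hη, eventually_gt_atTop (0 : ℝ)] with N hN1 hN
  intro x hx
  have hN4 : 0 < N ^ 4 := by positivity
  have hchi : chi x = 1 := by
    unfold chi
    exact app2_one (by linarith)
  have hp0 : 0 ≤ psi N x := (app2_fac _).1
  have hp1 : psi N x ≤ 1 := (app2_fac _).2
  have e3 : B F N x + gg F a N x - 6 * Real.exp (4 * W F a N x) =
      (1 - psi N x) * (B F N x - 6 * Real.exp (4 * W F a N x)) := by
    unfold gg
    rw [hchi]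
    ring
  rw [e3, abs_mul, abs_of_nonneg (by linarith : 0 ≤ 1 - psi N x)]
  by_cases hex : ‖x - x0‖ ≤ 2 / N ^ 4
  · calc (1 - psi N x) * |B F N x - 6 * Real.exp (4 * W F a N x)| ≤
        1 * |B F N x - 6 * Real.exp (4 * W F a N x)| :=
          mul_le_mul_of_nonneg_right (by linarith) (abs_nonneg _)
      _ ≤ _ := by rw [one_mul]; exact hN1 x hex
  · push Not at hex
    have h4 : psi N x = 1 := by
      unfold psi
      refine app2_one ?_
      rw [div_lt_iff₀ hN4] at hex
      linarith
    rw [h4, sub_self, zero_mul]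
    positivity

end Pool.Agent.Q82.QD
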