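import Mathlib
import Pool.Agent.Q2.TN.Stm

namespace Q187.TN_E2

open Q2.TN
open Subgroup

theorem W_le {G : Type} [Group G] (b : Bool) (P : Subgroup G) : W b P ≤ P := by
  cases b
  · exact inf_le_left
  · exact sSup_le fun A hA => hA.1

theorem e2 (h1 : S_D1) (h2 : S_E1) (h3 : S_A2) : S_E2 := by
  intro p hp G _ _ N P _ hN hP b hnil
  have hinj : ∀ x ∈ P, QuotientGroup.mk' N x = 1 → x = 1 := by
    intro x hx hx1
    have hxN : x ∈ N := by
      rw [QuotientGroup.mk'_apply] at hx1
      exact (QuotientGroup.eq_one_iff x).1 hx1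
    obtain ⟨k, hk⟩ := hP ⟨x, hx⟩
    have hk' : x ^ p ^ k = 1 := by
      have := congrArg Subtype.val hk
      simpa using this
    have hd1 : orderOf x ∣ p ^ k := orderOf_dvd_of_pow_eq_one hk'
    have hd2 : orderOf x ∣ Nat.card N := Subgroup.orderOf_dvd_natCard N hxN
    have hc : (Nat.card N).Coprime (p ^ k) := Nat.Coprime.pow_right k hN
    have h : orderOf x = 1 := Nat.eq_one_of_dvd_coprimes hc hd2 hd1
    exact orderOf_eq_one_iff.1 h
  have hW : (W b P).map (QuotientGroup.mk' N) = W b (P.map (QuotientGroup.mk' N)) :=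
    h1 G (G ⧸ N) (QuotientGroup.mk' N) P hinj b
  have hX : IsPGroup p (W b P) := hP.to_le (W_le b P)
  have hE : Nm ((W b P).map (QuotientGroup.mk' N)) = (Nm (W b P)).map (QuotientGroup.mk' N) :=
    h2 p hp G N (W b P) hN hX
  rw [← hW, hE]
  exact h3 p hp (Nm (W b P)) ((Nm (W b P)).map (QuotientGroup.mk' N))
    ((QuotientGroup.mk' N).subgroupMap (Nm (W b P)))
    (MonoidHom.subgroupMap_surjective _ _) hnil

end Q187.TN_E2
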